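import Pool.Agent.H23R2.Bridge

/-!
# The Dennis trace of an invertible matrix over `ℤΓ` modulo good primes

For an invertible matrix `A` over the integral group ring of a group `Γ` and a Hochschild
`1`-cocycle `f : Γ × Γ → M` the pairing
`∑_{i,j} ∑_{g,h} (A⁻¹)_{ij}(g) A_{ji}(h) f(g,h)` is the value of `f` on the Dennis trace of the
class of `A` in `K₁(ℤΓ)`.
-/

set_option autoImplicit false

namespace Pool.Agent.Results.MP_8f66f0_al.DennisTraceModP

open Pool.Agent.H23R2

universe u v

/-- For every group `Γ` and every invertible matrix `A` over `ℤΓ` there is a group element `γ`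
such that for every odd prime `p` for which `p`-th roots are unique in `Γ` and no nontrivial
element of `Γ` is infinitely `p`-divisible, and for every Hochschild `1`-cocycle `f` on `Γ` with
values in an abelian group `M`, the values of `f` on the Dennis traces of `A` and of the
`1 × 1` matrix `(γ)` are congruent modulo `p`. -/
theorem result (Γ : Type u) [Group Γ] (n : ℕ)
    (A : (Matrix (Fin n) (Fin n) (MonoidAlgebra ℤ Γ))ˣ) :
    ∃ γ : Γ, ∀ p : ℕ, p.Prime → p ≠ 2 →
      (∀ x y : Γ, x ^ p = y ^ p → x = y) →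
      (∀ g : Γ, g ≠ 1 → ∃ k : ℕ, ∀ x : Γ, x ^ (p ^ k) ≠ g) →
      ∀ (M : Type v) [AddCommGroup M] (f : Γ → Γ → M),
        (∀ x y z : Γ, f (x * y) z - f x (y * z) + f (z * x) y = 0) →
        ∃ m : M,
          (∑ i, ∑ j, ((A⁻¹).val i j).coeff.sum fun g b =>
              (A.val j i).coeff.sum fun h a => (b * a) • f g h)
            = f γ⁻¹ γ + p • m := by
  classical
  set S : Finset Γ := supp A.val ∪ supp (A⁻¹).val with hS
  have hA : ∀ i j g, (A.val i j).coeff g ≠ 0 → g ∈ S := fun i j g hg =>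
    Finset.mem_union_left _ (mem_supp _ i j g hg)
  have hB : ∀ i j g, ((A⁻¹).val i j).coeff g ≠ 0 → g ∈ S := fun i j g hg =>
    Finset.mem_union_right _ (mem_supp _ i j g hg)
  have hpair : InvPair (cf A.val) (cf (A⁻¹).val) S := invPair_units A
  refine ⟨gam (cf A.val) (cf (A⁻¹).val) S, ?_⟩
  intro p hp hp2 hinj hdiv M _ f hf
  obtain ⟨m, hm⟩ := DsumZ_main hpair ⟨hp, hp2, hinj, hdiv⟩ (isCoc_of_hochschild f hf)
  refine ⟨m, ?_⟩
  have h1 := pairing_eq f (A⁻¹).val A.val S hA hB
  unfold pairing at h1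
  rw [h1, hm]
  simp

end Pool.Agent.Results.MP_8f66f0_al.DennisTraceModP
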