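import Pool.Agent.H23R2.Det
import Pool.Agent.H23R2.Lin

/-!
# Rigidity of determinants of invertible matrices over integral group rings

For a large class of torsion-free groups `Γ` (containing all torsion-free groups which are linear
over a field of characteristic zero) and every invertible matrix `A` over `ℤΓ` there is `γ ∈ Γ`
such that for every finite-dimensional representation `ρ` over a field of characteristic zero
`det ρ(A) / det ρ(γ)` is an algebraic number.
-/

set_option autoImplicit false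

namespace Pool.Agent.Results.MP_8f66f0_al.DetRigidity

open Pool.Agent.H23R2

universe u v w

/-- Every finitely generated subgroup `H` of `Γ` has infinitely many primes `p` such that `p`-th
roots are unique in `H` and such that no nontrivial element of `H` is a `p ^ k`-th power in `H`
for all `k`. -/
def ManyGoodPrimes (Γ : Type u) [Group Γ] : Prop :=
  ∀ H : Subgroup Γ, H.FG →
    {p : ℕ | p.Prime ∧ (∀ x ∈ H, ∀ y ∈ H, x ^ p = y ^ p → x = y) ∧
      (∀ g ∈ H, g ≠ 1 → ∃ k : ℕ, ∀ x ∈ H, x ^ (p ^ k) ≠ g)}.Infinite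

lemma good_iff {Γ : Type u} [Group Γ] (H : Subgroup Γ) (p : ℕ) (hp2 : p ≠ 2) :
    GoodPrime H p ↔ (p.Prime ∧ (∀ x ∈ H, ∀ y ∈ H, x ^ p = y ^ p → x = y) ∧
      (∀ g ∈ H, g ≠ 1 → ∃ k : ℕ, ∀ x ∈ H, x ^ (p ^ k) ≠ g)) := by
  constructor
  · rintro ⟨h1, _, h3, h4⟩
    refine ⟨h1, ?_, ?_⟩
    · intro x hx y hy hxy
      have := h3 ⟨x, hx⟩ ⟨y, hy⟩ (Subtype.ext (by simpa using hxy))
      exact congrArg Subtype.val this
    · intro g hg hg1
      obtain ⟨k, hk⟩ := h4 ⟨g, hg⟩ (by
        intro hc
        exact hg1 (congrArg Subtype.val hc))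
      refine ⟨k, fun x hx hxg => hk ⟨x, hx⟩ (Subtype.ext (by simpa using hxg))⟩
  · rintro ⟨h1, h3, h4⟩
    refine ⟨h1, hp2, ?_, ?_⟩
    · intro x y hxy
      apply Subtype.ext
      exact h3 x.1 x.2 y.1 y.2 (by simpa using congrArg Subtype.val hxy)
    · intro g hg
      obtain ⟨k, hk⟩ := h4 g.1 g.2 (fun hc => hg (Subtype.ext hc))
      exact ⟨k, fun x hxg => hk x.1 x.2 (by simpa using congrArg Subtype.val hxg)⟩

lemma good_infinite {Γ : Type u} [Group Γ] (H : Subgroup Γ) :
    {p : ℕ | p.Prime ∧ (∀ x ∈ H, ∀ y ∈ H, x ^ p = y ^ p → x = y) ∧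
      (∀ g ∈ H, g ≠ 1 → ∃ k : ℕ, ∀ x ∈ H, x ^ (p ^ k) ≠ g)}.Infinite ↔
    {p : ℕ | GoodPrime H p}.Infinite := by
  constructor
  · intro h
    have h1 := h.diff (Set.finite_singleton 2)
    refine h1.mono ?_
    rintro p ⟨hp, hp2⟩
    exact (good_iff H p hp2).2 hp
  · intro h
    refine h.mono ?_
    intro p hp
    exact (good_iff H p hp.odd).1 hp

/-- (1) Every torsion-free group which is linear over a field of characteristic zero satisfies
`ManyGoodPrimes`; (2) for every group `Γ` satisfying `ManyGoodPrimes` and every invertible matrix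
`A` over `ℤΓ` there is `γ ∈ Γ` such that for all representations `ρ : Γ → GL_d(L)`, `L` a field of
characteristic zero, the quotient of the determinant of the block matrix `ρ(A)` by `det ρ(γ)` is
algebraic over `ℚ`. -/
theorem result :
    (∀ (Γ : Type u) [Group Γ], (∀ g : Γ, ∀ k : ℕ, 0 < k → g ^ k = 1 → g = 1) →
      ∀ (K : Type w) [Field K] [CharZero K] (N : ℕ) (φ : Γ →* GL (Fin N) K),
        Function.Injective φ → ManyGoodPrimes Γ) ∧
    (∀ (Γ : Type u) [Group Γ], ManyGoodPrimes Γ →
      ∀ (n : ℕ) (A : (Matrix (Fin n) (Fin n) (MonoidAlgebra ℤ Γ))ˣ),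
        ∃ γ : Γ, ∀ (L : Type v) [Field L] [CharZero L] (d : ℕ) (ρ : Γ →* GL (Fin d) L),
          IsAlgebraic ℚ
            ((Matrix.of fun x y : Fin n × Fin d =>
                (A.val x.1 y.1).coeff.sum fun g a => (a : L) * (ρ g).val x.2 y.2).det
              / (ρ γ).val.det)) := by
  constructor
  · intro Γ _ htf K _ _ N φ hφ H hH
    rw [good_infinite]
    haveI : Group.FG H := (Group.fg_iff_subgroup_fg H).2 hH
    have hfin := finite_bad_primes (H := H)
      (by
        intro g k hk hg
        apply Subtype.ext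
        exact htf g.1 k hk (by simpa using congrArg Subtype.val hg))
      (φ.comp H.subtype) (hφ.comp H.subtype_injective)
    intro hcon
    have h1 : {p : ℕ | p.Prime} ⊆ {p : ℕ | p.Prime ∧ ¬ GoodPrime H p} ∪ {p : ℕ | GoodPrime H p} := by
      intro p hp
      by_cases h : GoodPrime H p
      · exact Or.inr h
      · exact Or.inl ⟨hp, h⟩
    exact Nat.infinite_setOf_prime ((hfin.union hcon).subset h1)
  · intro Γ _ hΓ n A
    exact det_algebraic (fun S => (good_infinite _).1 (hΓ _ ⟨S, rfl⟩)) A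

end Pool.Agent.Results.MP_8f66f0_al.DetRigidity
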