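import Pool.Agent.H23R2.Odd.Sub

/-!
# Odd cyclic cocycles on integral group rings do not see the Whitehead group

Let `u` be an invertible matrix over the integral group ring of a group `G`, with inverse `v`,
and let `H` be the subgroup of `G` generated by the supports of the entries of `u` and `v`.

There is `γ ∈ H` with the following property.  Let `S` be a set of primes `p` such that `H` has
no element of order `p` (for instance `G` torsion-free and `S` the set of all primes).  Let `M`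
be an abelian group such that every nonzero element `x` satisfies `x ∉ p M` for infinitely many
`p ∈ S` (for instance `M = ℤ` and `S` infinite).  Let `(Ω, δ, T)` be a cycle (in the sense of
A. Connes) of dimension `2n + 1` over `ℤ[G]` with values in `M` such that
`T(g₀ δg₁ ⋯ δg₂ₙ₊₁) = 0` as soon as `g = g₀ g₁ ⋯ g₂ₙ₊₁ ≠ 1` has, for some `p ∈ S`, a
`p ^ j`-th root in `H` for every `j` (this is satisfied by all cycles localized at the identity
element, that is, by all cyclic cocycles coming from the cohomology of the group `G`).  Then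
`T(tr(v δu (δv δu)ⁿ)) = T(γ⁻¹ δγ (δγ⁻¹ δγ)ⁿ)`.

So the pairings of the class of `u` in `K₁(ℤ[G])` with these cycles are those of the trivial
unit `γ`.
-/

set_option autoImplicit false

namespace Pool.Agent.Results.MP_8f66f0_al.OddCycles

open Pool.Agent.H23R2.Ch Pool.Agent.H23R2.Odd

universe u1 u2 u3 u4

theorem result {G : Type u1} [Group G] {r : Type u2} [Fintype r] [DecidableEq r]
    (u v : Matrix r r (MonoidAlgebra ℤ G)) (huv : u * v = 1) (hvu : v * u = 1) :
    ∃ γ ∈ supGrp u v, ∀ (S : Set ℕ),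
      (∀ p ∈ S, p.Prime ∧ ∀ g ∈ supGrp u v, g ^ p = 1 → g = 1) →
      ∀ (M : Type u3) [AddCommGroup M],
        (∀ x : M, x ≠ 0 → {p : ℕ | p ∈ S ∧ ¬ ∃ y : M, p • y = x}.Infinite) →
      ∀ (Ω : Type u4) [Ring Ω] (𝒜 : ℕ → Submodule ℤ Ω) [GradedAlgebra 𝒜]
        (δ : Ω →ₗ[ℤ] Ω) (T : Ω →ₗ[ℤ] M) (n : ℕ), IsCycle (2 * n + 1) 𝒜 δ T →
      ∀ (ρ : MonoidAlgebra ℤ G →ₐ[ℤ] Ω), (∀ a, ρ a ∈ 𝒜 0) →
        (∀ g : G, g ≠ 1 → (∃ p ∈ S, ∀ j : ℕ, ∃ x ∈ supGrp u v, x ^ p ^ j = g) →
          ∀ (g₀ : G) (l : List G), l.length = 2 * n + 1 → g₀ * l.prod = g →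
            T (ρ (MonoidAlgebra.single g₀ 1) *
              (l.map fun h => δ (ρ (MonoidAlgebra.single h 1))).prod) = 0) →
        T (v.map ρ * (u.map ρ).map δ * ((v.map ρ).map δ * (u.map ρ).map δ) ^ n).trace =
          T (ρ (MonoidAlgebra.single γ⁻¹ 1) * δ (ρ (MonoidAlgebra.single γ 1)) *
            (δ (ρ (MonoidAlgebra.single γ⁻¹ 1)) * δ (ρ (MonoidAlgebra.single γ 1))) ^ n) :=
  main_sub u v huv hvu

end Pool.Agent.Results.MP_8f66f0_al.OddCycles
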